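import Pool.Agent.Helper38.NG.TRB

/-!
# Part NFM of project NG (helper43), page MP_d69e80_al
-/

set_option autoImplicit false

namespace Pool.Agent.Helper38.NG

open scoped Pointwise commutatorElement
open Subgroup
open Pool.Agent.Helper43.NG

universe u

theorem S0_mono {G : Type u} [Group G] (T : Set G) (k m : ℕ) {K K' : ℕ} (h : K ≤ K') :
    S0 T k m K ≤ S0 T k m K' := by
  apply Subgroup.closure_mono
  rintro x ⟨h1, hh1, n, hn, y, hy, d, hd, e⟩
  exact ⟨h1, hh1, n, hn.trans_le h, y, hy, d, hd, e⟩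

/-- normal form of the elements of `HH T k m` -/
theorem normal_form (hL : S_LET.{u}) (hA : S_TRA.{u}) (hB : S_TRB.{u}) {G : Type u} [Group G]
    {T : Set G} (h1 : 1 ∈ T) (hT : T⁻¹ = T) {k m : ℕ} (hm : 1 ≤ m) (hmk : m ≤ k) {x : G}
    (hx : x ∈ HH T k m) :
    ∃ K n : ℕ, 0 < K ∧ n ≤ K ∧ ∃ s ∈ S0 T k m K, ∃ h ∈ HH T k (m + 1), ∃ y ∈ (LL T m) ^ n,
      x = s * (h * y) := by
  have step : ∀ x a : G, a ∈ EE T k m →
      (∃ K n : ℕ, 0 < K ∧ n ≤ K ∧ ∃ s ∈ S0 T k m K, ∃ h ∈ HH T k (m + 1), ∃ y ∈ (LL T m) ^ n,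
        x = s * (h * y)) →
      (∃ K n : ℕ, 0 < K ∧ n ≤ K ∧ ∃ s ∈ S0 T k m K, ∃ h ∈ HH T k (m + 1), ∃ y ∈ (LL T m) ^ n,
        x * a = s * (h * y)) := by
    rintro x a ⟨l, hl1, hl2, ha⟩ ⟨K, n, hK, hn, s, hs, h, hh, y, hy, rfl⟩
    rcases Nat.eq_or_lt_of_le hl1 with rfl | hlt
    · refine ⟨K + 1, n + 1, by omega, by omega, s, S0_mono T k m (Nat.le_succ K) hs, h, hh,
        y * a, ?_, ?_⟩
      · rw [pow_succ]; exact Set.mul_mem_mul hy ha
      · group
    · have haH : a ∈ HH T k l := Subgroup.subset_closure ⟨l, le_rfl, hl2, ha⟩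
      have h3 := hB G T h1 hT k m K hm hmk hK n hn y hy l hlt hl2 a haH
      have h4 := mul_mem (NN_anti T k m K (by omega : m + 1 ≤ l + 1) h3)
        (HH_le_NN T k m K (m + 1) (HH_anti T k (by omega : m + 1 ≤ l) haH))
      rw [inv_mul_cancel_right] at h4
      obtain ⟨s', hs', h', hh', e⟩ :=
        ((hA G T h1 hT k m K hm hmk hK).2.1 (m + 1) (by omega) _).1 h4
      refine ⟨K, n, hK, hn, s * (h * s' * h⁻¹), mul_mem hs
        ((hA G T h1 hT k m K hm hmk hK).1 h hh s' hs'), h * h', mul_mem hh hh', y, hy, ?_⟩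
      have e2 : y * a = s' * h' * y := by rw [← e]; group
      calc s * (h * y) * a = s * h * (y * a) := by group
        _ = s * h * (s' * h' * y) := by rw [e2]
        _ = s * (h * s' * h⁻¹) * (h * h' * y) := by group
  unfold HH at hx
  induction hx using closure_induction_right with
  | one =>
    exact ⟨1, 0, one_pos, Nat.zero_le _, 1, one_mem _, 1, one_mem _, 1, by simp, by simp⟩
  | mul_right x _ a ha ih => exact step x a ha ih
  | mul_inv_cancel x _ a ha ih =>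
    obtain ⟨l, hl1, hl2, ha'⟩ := ha
    exact step x a⁻¹ ⟨l, hl1, hl2, (hL G T h1 hT).2.1 l a ha'⟩ ih

theorem nfm (hL : S_LET.{u}) (hA : S_TRA.{u}) (hB : S_TRB.{u}) : S_NFM.{u} := by
  intro G _ T h1 hT k m hm hmk Z hng x hx
  obtain ⟨K, n, hK, hn, s, hs, h, hh, y, hy, rfl⟩ := normal_form hL hA hB h1 hT hm hmk hx
  have hsZ : s ∈ Z := by
    have hle : S0 T k m K ≤ Z := by
      unfold S0
      rw [closure_le]
      rintro z ⟨h', hh', n', _, y', hy', d, hd, rfl⟩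
      by_contra hc
      exact hng n' h' hh' y' hy' ⟨d, hd, hc⟩
    exact hle hs
  rintro ⟨d, hd, hc⟩
  refine hng n h hh y hy ⟨d, hd, fun hc2 => hc ?_⟩
  have h5 := mul_mem (mul_mem hsZ hc2) (inv_mem hsZ)
  have e : s * (h * y) * d * (s * (h * y))⁻¹ = s * (h * y * d * (h * y)⁻¹) * s⁻¹ := by group
  rw [e]; exact h5

end Pool.Agent.Helper38.NG
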