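import Pool.Agent.Helper43.NG.Spec

/-!
# Parts PTA and PTC of project NG (helper43), page MP_d69e80_al
-/

set_option autoImplicit false

namespace Pool.Agent.Helper38.NG

open scoped Pointwise commutatorElement
open Subgroup
open Pool.Agent.Helper43.NG

universe u

theorem Path_mono {G : Type u} [Group G] {E : Set G} (h1 : 1 ∈ E) :
    ∀ (l : List G) (a b : G) (n n' : ℕ), Path E a l b n → n ≤ n' → Path E a l b n'
  | [], _, _, _, _, h, hn => Set.pow_subset_pow_right h1 hn h
  | _ :: _, _, _, _, _, ⟨m, n'', h2, h3, h4⟩, hn => ⟨m, n'', h2, h3, h4.trans hn⟩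

theorem Path_pre {G : Type u} [Group G] {E : Set G} :
    ∀ (l : List G) (a b c : G) (n n' : ℕ), a⁻¹ * b ∈ E ^ n → Path E b l c n' →
      Path E a l c (n + n')
  | [], a, b, c, n, n', h, h' => by
    have h2 : (a⁻¹ * b) * (b⁻¹ * c) ∈ E ^ (n + n') := by
      rw [pow_add]; exact Set.mul_mem_mul h h'
    have e : (a⁻¹ * b) * (b⁻¹ * c) = a⁻¹ * c := by group
    rw [e] at h2
    exact h2
  | q :: l, a, b, c, n, n', h, ⟨m, n'', h2, h3, h4⟩ => by
    refine ⟨n + m, n'', ?_, h3, by omega⟩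
    have e : a⁻¹ * q = (a⁻¹ * b) * (b⁻¹ * q) := by group
    rw [e, pow_add]; exact Set.mul_mem_mul h h2

theorem Path_append {G : Type u} [Group G] {E : Set G} (l' : List G) :
    ∀ (l : List G) (a b c : G) (n n' : ℕ), Path E a l b n → Path E b l' c n' →
      Path E a (l ++ l') c (n + n')
  | [], a, b, c, n, n', h, h' => Path_pre l' a b c n n' h h'
  | q :: l, a, b, c, n, n', ⟨m, n'', h2, h3, h4⟩, h' =>
    ⟨m, n'' + n', h2, Path_append l' l q b c n'' n' h3 h', by omega⟩

theorem Path_trans {G : Type u} [Group G] {E : Set G} (g : G) :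
    ∀ (l : List G) (a b : G) (n : ℕ), Path E a l b n →
      Path E (g * a) (l.map (g * ·)) (g * b) n
  | [], a, b, n, h => by
    have e : (g * a)⁻¹ * (g * b) = a⁻¹ * b := by group
    change (g * a)⁻¹ * (g * b) ∈ E ^ n
    rw [e]; exact h
  | q :: l, a, b, n, ⟨m, n'', h2, h3, h4⟩ => by
    refine ⟨m, n'', ?_, Path_trans g l q b n'' h3, h4⟩
    have e : (g * a)⁻¹ * (g * q) = a⁻¹ * q := by group
    change (g * a)⁻¹ * (g * q) ∈ E ^ m
    rw [e]; exact h2

theorem inv_mem_pow {G : Type u} [Group G] {E : Set G} (hE : E⁻¹ = E) {x : G} {n : ℕ}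
    (hx : x ∈ E ^ n) : x⁻¹ ∈ E ^ n := by
  have h : x⁻¹ ∈ (E ^ n)⁻¹ := Set.inv_mem_inv.2 hx
  rwa [← inv_pow, hE] at h

theorem Path_reverse {G : Type u} [Group G] {E : Set G} (hE : E⁻¹ = E) (h1 : 1 ∈ E) :
    ∀ (l : List G) (a b : G) (n : ℕ), Path E a l b n → Path E b l.reverse a n
  | [], a, b, n, h => by
    have h2 := inv_mem_pow hE h
    rw [mul_inv_rev, inv_inv] at h2
    exact h2
  | q :: l, a, b, n, ⟨m, n'', h2, h3, h4⟩ => by
    rw [List.reverse_cons]
    have h5 := inv_mem_pow hE h2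
    rw [mul_inv_rev, inv_inv] at h5
    have h6 : Path E q [q] a m := ⟨0, m, by simp, h5, by omega⟩
    exact Path_mono h1 _ _ _ _ _
      (Path_append [q] l.reverse b q a n'' m (Path_reverse hE h1 l q b n'' h3) h6) (by omega)

theorem Path_sub {G : Type u} [Group G] {E T : Set G} {w : ℕ} (h : E ⊆ T ^ w) :
    ∀ (l : List G) (a b : G) (n : ℕ), Path E a l b n → Path T a l b (w * n)
  | [], a, b, n, h' => by
    change a⁻¹ * b ∈ T ^ (w * n)
    rw [pow_mul]
    exact Set.pow_subset_pow_left h h'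
  | q :: l, a, b, n, ⟨m, n'', h2, h3, h4⟩ => by
    refine ⟨w * m, w * n'', ?_, Path_sub h l q b n'' h3, ?_⟩
    · rw [pow_mul]
      exact Set.pow_subset_pow_left h h2
    · rw [← mul_add]; exact Nat.mul_le_mul_left w h4

/-- part PTA -/
theorem pta : S_PTA.{u} := by
  intro G _ E h1
  exact ⟨fun a l b n n' h hn => Path_mono h1 l a b n n' h hn,
    fun a l b l' c n n' h h' => Path_append l' l a b c n n' h h',
    fun g a l b n h => Path_trans g l a b n h,
    fun hE a l b n h => Path_reverse hE h1 l a b n h,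
    fun T w hw a l b n h => Path_sub hw l a b n h⟩

/-- part PTC -/
theorem ptc : S_PTC.{u} := by
  intro G _ T h1 n₀ l
  induction l with
  | nil =>
    intro a b N h _
    have h' : a⁻¹ * b ∈ T ^ N := h
    simpa using h'
  | cons p l ih =>
    intro a b N h hl
    obtain ⟨m, n', h2, h3, h4⟩ := h
    have h5 := ih p.1 b n' h3 (fun q hq => hl q (List.mem_cons_of_mem _ hq))
    have h6 := hl p List.mem_cons_self
    have h7 : (a⁻¹ * p.1) * (p.2 * (p.1⁻¹ * (l.map fun p => p.1 * p.2 * p.1⁻¹).prod * b)) ∈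
        T ^ (m + (n₀ + (n' + n₀ * l.length))) := by
      rw [pow_add, pow_add]
      exact Set.mul_mem_mul h2 (Set.mul_mem_mul h6 h5)
    rw [List.map_cons, List.prod_cons, List.length_cons]
    have e : a⁻¹ * (p.1 * p.2 * p.1⁻¹ * (l.map fun p => p.1 * p.2 * p.1⁻¹).prod) * b
        = (a⁻¹ * p.1) * (p.2 * (p.1⁻¹ * (l.map fun p => p.1 * p.2 * p.1⁻¹).prod * b)) := by
      group
    rw [e]
    refine Set.pow_subset_pow_right h1 ?_ h7
    rw [mul_add, mul_one]
    omega

end Pool.Agent.Helper38.NG
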