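import Pool.Agent.Helper38.NG.TRB

/-!
# Part ROT of project NG (helper43), page MP_d69e80_al
-/

set_option autoImplicit false

namespace Pool.Agent.Helper38.NG

open scoped Pointwise commutatorElement
open Subgroup
open Pool.Agent.Helper43.NG

universe u

theorem rot_base (hB : S_TRB.{u}) {G : Type u} [Group G] {T : Set G} (h1 : 1 ∈ T)
    (hT : T⁻¹ = T) {k m K : ℕ} (hm : 1 ≤ m) (hmk : m ≤ k) (hK : 0 < K) {n : ℕ} (hn : n < K)
    {w a t : G} (hw : w ∈ (LL T m) ^ n) (ha : a ∈ LL T m) (ht : t ∈ LL T m) :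
    w * (a * t * a⁻¹ * t⁻¹) * w⁻¹ ∈ NN T k m K (m + 1) := by
  have hLet : Let T (m + m) ⁅a, t⁆ := Let.comm ha ht
  rw [← commutatorElement_def]
  by_cases hc : m + m ≤ k
  · have hc2 : ⁅a, t⁆ ∈ HH T k (m + 1) := Subgroup.subset_closure ⟨m + m, by omega, hc, hLet⟩
    have h3 := hB G T h1 hT k m K hm hmk hK n (by omega) w hw (m + 1) (by omega) (by omega)
      ⁅a, t⁆ hc2
    have h4 := mul_mem (NN_anti T k m K (Nat.le_succ (m + 1)) h3)
      (HH_le_NN T k m K (m + 1) hc2)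
    rwa [inv_mul_cancel_right] at h4
  · exact conj_DD_mem T k m K (m + 1) hn hw ⟨m, m, a, t, hmk, hmk, by omega, ha, ht, rfl⟩

theorem rot_one (hB : S_TRB.{u}) {G : Type u} [Group G] {T : Set G} (h1 : 1 ∈ T)
    (hT : T⁻¹ = T) {k m K : ℕ} (hm : 1 ≤ m) (hmk : m ≤ k) (hK : 0 < K) {a : G}
    (ha : a ∈ LL T m) (j : ℕ) :
    ∀ (n : ℕ) (w q : G), w ∈ (LL T m) ^ n → q ∈ (LL T m) ^ j → n + 1 + j ≤ K + 1 →
      w * (a * q * a⁻¹ * q⁻¹) * w⁻¹ ∈ NN T k m K (m + 1) := by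
  induction j with
  | zero =>
    intro n w q _ hq _
    rw [pow_zero, Set.mem_one] at hq
    subst hq
    simp
  | succ j ih =>
    intro n w q hw hq hn
    rw [pow_succ', Set.mem_mul] at hq
    obtain ⟨t, ht, q', hq', rfl⟩ := hq
    have hwt : w * t ∈ (LL T m) ^ (n + 1) := by
      rw [pow_succ]; exact Set.mul_mem_mul hw ht
    have h2 := rot_base hB h1 hT hm hmk hK (by omega : n < K) hw ha ht
    have h3 := ih (n + 1) (w * t) q' hwt hq' (by omega)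
    have e : w * (a * (t * q') * a⁻¹ * (t * q')⁻¹) * w⁻¹
        = (w * (a * t * a⁻¹ * t⁻¹) * w⁻¹) *
          ((w * t) * (a * q' * a⁻¹ * q'⁻¹) * (w * t)⁻¹) := by group
    rw [e]; exact mul_mem h2 h3

theorem rot_gen (hB : S_TRB.{u}) {G : Type u} [Group G] {T : Set G} (h1 : 1 ∈ T)
    (hT : T⁻¹ = T) {k m K : ℕ} (hm : 1 ≤ m) (hmk : m ≤ k) (hK : 0 < K) (i : ℕ) :
    ∀ (n j : ℕ) (w p q : G), w ∈ (LL T m) ^ n → p ∈ (LL T m) ^ i → q ∈ (LL T m) ^ j →
      n + i + j ≤ K + 1 → w * (p * q * p⁻¹ * q⁻¹) * w⁻¹ ∈ NN T k m K (m + 1) := by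
  induction i with
  | zero =>
    intro n j w p q _ hp _ _
    rw [pow_zero, Set.mem_one] at hp
    subst hp
    simp
  | succ i ih =>
    intro n j w p q hw hp hq hn
    rw [pow_succ', Set.mem_mul] at hp
    obtain ⟨a, ha, p', hp', rfl⟩ := hp
    have hwa : w * a ∈ (LL T m) ^ (n + 1) := by
      rw [pow_succ]; exact Set.mul_mem_mul hw ha
    have h2 := ih (n + 1) j (w * a) p' q hwa hp' hq (by omega)
    have h3 := rot_one hB h1 hT hm hmk hK ha j n w q hw hq (by omega)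
    have e : w * ((a * p') * q * (a * p')⁻¹ * q⁻¹) * w⁻¹
        = ((w * a) * (p' * q * p'⁻¹ * q⁻¹) * (w * a)⁻¹) *
          (w * (a * q * a⁻¹ * q⁻¹) * w⁻¹) := by group
    rw [e]; exact mul_mem h2 h3

theorem rot (hB : S_TRB.{u}) : S_ROT.{u} := by
  intro G _ T h1 hT k m K hm hmk hK i j p q hp hq hij
  have h := rot_gen hB h1 hT hm hmk hK i 0 j 1 p q (by simp) hp hq (by omega)
  simpa using h

end Pool.Agent.Helper38.NG
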