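import Pool.Agent.Helper43.NG.Spec

/-!
# Part TRB of project NG (helper43), page MP_d69e80_al
-/

set_option autoImplicit false

namespace Pool.Agent.Helper38.NG

open scoped Pointwise commutatorElement
open Subgroup
open Pool.Agent.Helper43.NG

universe u

theorem EE_anti {G : Type u} [Group G] (T : Set G) (k : ℕ) {l l' : ℕ} (h : l ≤ l') :
    EE T k l' ⊆ EE T k l := by
  rintro x ⟨i, h1, h2, h3⟩
  exact ⟨i, h.trans h1, h2, h3⟩

theorem HH_anti {G : Type u} [Group G] (T : Set G) (k : ℕ) {l l' : ℕ} (h : l ≤ l') :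
    HH T k l' ≤ HH T k l := closure_mono (EE_anti T k h)

theorem NN_anti {G : Type u} [Group G] (T : Set G) (k m K : ℕ) {l l' : ℕ} (h : l ≤ l') :
    NN T k m K l' ≤ NN T k m K l := sup_le_sup_right (HH_anti T k h) _

theorem HH_le_NN {G : Type u} [Group G] (T : Set G) (k m K l : ℕ) :
    HH T k l ≤ NN T k m K l := le_sup_left

/-- a conjugate of an element of `DD` by a short product lies in every `NN` -/
theorem conj_DD_mem {G : Type u} [Group G] (T : Set G) (k m K l : ℕ) {n : ℕ} (hn : n < K)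
    {w : G} (hw : w ∈ (LL T m) ^ n) {d : G} (hd : d ∈ DD T k) :
    w * d * w⁻¹ ∈ NN T k m K l := by
  have h1 : w * d * w⁻¹ ∈ S0 T k m K := by
    apply Subgroup.subset_closure
    exact ⟨1, one_mem _, n, hn, w, hw, d, hd, by simp⟩
  exact (le_sup_right : S0 T k m K ≤ NN T k m K l) h1

theorem norm_NN (hA : S_TRA.{u}) {G : Type u} [Group G] {T : Set G} (h1 : 1 ∈ T)
    (hT : T⁻¹ = T) {k m K : ℕ} (hm : 1 ≤ m) (hmk : m ≤ k) (hK : 0 < K) {l : ℕ} (hl : m < l)
    (hlk : l ≤ k) {g x : G} (hg : g ∈ NN T k m K (m + 1)) (hx : x ∈ NN T k m K (l + 1)) :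
    g * x * g⁻¹ ∈ NN T k m K (l + 1) := by
  have h := (hA G T h1 hT k m K hm hmk hK).2.2.1 l hl hlk g hg x
    (NN_anti T k m K (Nat.le_succ l) hx)
  have h2 := mul_mem h hx
  simpa using h2

theorem trb (hA : S_TRA.{u}) : S_TRB.{u} := by
  intro G _ T h1 hT k m K hm hmk hK n
  induction n with
  | zero =>
    intro _ y hy l hl hlk h hh
    rw [pow_zero, Set.mem_one] at hy
    subst hy
    simp
  | succ n ih =>
    intro hn y hy l hl hlk h hh
    rw [pow_succ, Set.mem_mul] at hy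
    obtain ⟨y', hy', t, ht, rfl⟩ := hy
    have hnK : n < K := hn
    induction hh using closure_induction with
    | mem a ha =>
      obtain ⟨l', hl1, hl2, ha'⟩ := ha
      have hLet : Let T (m + l') ⁅t, a⁆ := Let.comm ht ha'
      have hfirst : y' * ⁅t, a⁆ * y'⁻¹ ∈ NN T k m K (l + 1) := by
        by_cases hc : m + l' ≤ k
        · have hc2 : ⁅t, a⁆ ∈ HH T k (l + 1) :=
            Subgroup.subset_closure ⟨m + l', by omega, hc, hLet⟩
          have h3 := ih (by omega) y' hy' (l + 1) (by omega) (by omega) ⁅t, a⁆ hc2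
          have h4 := mul_mem (NN_anti T k m K (Nat.le_succ (l + 1)) h3)
            (HH_le_NN T k m K (l + 1) hc2)
          rwa [inv_mul_cancel_right] at h4
        · exact conj_DD_mem T k m K (l + 1) hnK hy'
            ⟨m, l', t, a, hmk, hl2, by omega, ht, ha', rfl⟩
      have hsecond := ih (by omega) y' hy' l hl hlk a (Subgroup.subset_closure ⟨l', hl1, hl2, ha'⟩)
      have h5 := mul_mem hfirst hsecond
      have e : (y' * t) * a * (y' * t)⁻¹ * a⁻¹
          = (y' * ⁅t, a⁆ * y'⁻¹) * (y' * a * y'⁻¹ * a⁻¹) := by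
        rw [commutatorElement_def]; group
      rw [e]; exact h5
    | one => simp
    | mul a b ha hb iha ihb =>
      have hg : a ∈ NN T k m K (m + 1) :=
        HH_le_NN T k m K (m + 1) (HH_anti T k (by omega : m + 1 ≤ l) ha)
      have h5 := mul_mem iha (norm_NN hA h1 hT hm hmk hK hl hlk hg ihb)
      have e : (y' * t) * (a * b) * (y' * t)⁻¹ * (a * b)⁻¹
          = ((y' * t) * a * (y' * t)⁻¹ * a⁻¹) *
            (a * ((y' * t) * b * (y' * t)⁻¹ * b⁻¹) * a⁻¹) := by group
      rw [e]; exact h5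
    | inv a ha iha =>
      have hg : a⁻¹ ∈ NN T k m K (m + 1) :=
        inv_mem (HH_le_NN T k m K (m + 1) (HH_anti T k (by omega : m + 1 ≤ l) ha))
      have h5 := norm_NN hA h1 hT hm hmk hK hl hlk hg (inv_mem iha)
      have e : (y' * t) * a⁻¹ * (y' * t)⁻¹ * a⁻¹⁻¹
          = a⁻¹ * ((y' * t) * a * (y' * t)⁻¹ * a⁻¹)⁻¹ * a⁻¹⁻¹ := by group
      rw [e]; exact h5

end Pool.Agent.Helper38.NG
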